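import Mathlib
import Pool.Agent.H61.ScE
import Pool.Agent.H61.ScStat

set_option autoImplicit false

namespace Pool.Agent.Results.MP_fc9cb6_an.OnlyOne

open Pool.Agent.H61.ScStat

theorem result (H : Type) [NormedAddCommGroup H] [InnerProductSpace ℂ H] [CompleteSpace H]
    (hH : ¬ FiniteDimensional ℂ H) (p : ℝ) (hp : 1 ≤ p)
    (A : Type) [NonUnitalNormedRing A] [NormedSpace ℂ A] [IsScalarTower ℂ A A]
    [SMulCommClass ℂ A A] [CompleteSpace A] (ι : A →ₙₐ[ℂ] (H →L[ℂ] H))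
    (hS : IsSchatten p ι) : ApproxSemiAmenable A ↔ p = 1 := by
  obtain ⟨w, b, -⟩ := exists_hilbertBasis ℂ H
  have hw : Infinite w := by
    by_contra h
    have : Finite w := not_infinite_iff_finite.1 h
    have := Fintype.ofFinite w
    exact hH b.toOrthonormalBasis.toBasis.finiteDimensional_of_finite
  have he : Orthonormal ℂ (b ∘ Infinite.natEmbedding w) :=
    b.orthonormal.comp _ (Infinite.natEmbedding w).injective
  have hS' : Pool.Agent.H61.ScDefs.IsSchatten p ι := ⟨hS.inj, hS.range, hS.norm⟩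
  have hA : ApproxSemiAmenable A ↔ Pool.Agent.H61.ScDefs.ApproxSemiAmenable A := by
    constructor
    · intro h X _ _ _ l r hb D hD
      obtain ⟨I, i1, i2, i3, ξ, η, h1⟩ := h X l r ⟨hb.left, hb.right, hb.comm⟩ D hD
      exact ⟨I, i1, i2, i3, ξ, η, fun a => tendsto_iff_norm_sub_tendsto_zero.2 (h1 a)⟩
    · intro h X _ _ _ l r hb D hD
      obtain ⟨I, i1, i2, i3, ξ, η, h1⟩ := h X l r ⟨hb.left, hb.right, hb.comm⟩ D hD
      exact ⟨I, i1, i2, i3, ξ, η, fun a => tendsto_iff_norm_sub_tendsto_zero.1 (h1 a)⟩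
  rw [hA]
  constructor
  · intro h
    by_contra h1
    exact Pool.Agent.H61.ScE.no (lt_of_le_of_ne hp (Ne.symm h1)) hS' he h
  · rintro rfl
    exact Pool.Agent.H61.ScC.yes hS' (he.1 0)

end Pool.Agent.Results.MP_fc9cb6_an.OnlyOne
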